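import Pool.Agent.Q161.KeyRes

/-!
# MP_26ab9b_co: stable key expansions of stretched Schubert polynomials

All polynomials are regarded as elements of the field `F` of rational functions in `x 0, x 1, …`.
Indices start at `0`.
-/

namespace Pool.Agent.Results.MP_26ab9b_co.StableKeyExpansion

open Finset Pool.Agent.Q161.Keys

/-- The field of rational functions in `x 0, x 1, …` (fraction field of `ℤ[x 0, x 1, …]`). -/
abbrev F := RatFun ℤ

/-- The variable `x i`. -/
noncomputable def x (i : ℕ) : F := var ℤ i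

/-- The automorphism `s_i` of `F` exchanging `x i` and `x (i + 1)`. -/
noncomputable def s (i : ℕ) (f : F) : F := permVars ℤ (Equiv.swap i (i + 1)) f

/-- The divided difference `∂_i f = (f - s_i f) / (x_i - x_{i+1})`. -/
noncomputable def ddiff (i : ℕ) (f : F) : F := (f - s i f) / (x i - x (i + 1))

/-- The Demazure operator `π_i f = (x_i f - x_{i+1} s_i f) / (x_i - x_{i+1})`. -/
noncomputable def demazure (i : ℕ) (f : F) : F :=
  (x i * f - x (i + 1) * s i f) / (x i - x (i + 1))

/-- The Schubert polynomial of `w ∈ S_n` (a permutation of `ℕ` fixing every `i ≥ n`): it is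
`x_0^{n-1} x_1^{n-2} ⋯` if `w` has no ascent `w i < w (i + 1)`, `i + 1 < n`, and otherwise
`∂_i` of the polynomial of `w s_i`, for the least ascent `i`. -/
noncomputable def schubert (n : ℕ) (w : Equiv.Perm ℕ) : F :=
  climb ddiff (fun _ => ∏ i ∈ range n, x i ^ ((n : ℤ) - 1 - i)) n (fun i => (w i : ℤ))

/-- The key polynomial of `(α 0, …, α (h-1))`: it is `x^α` if `α` is weakly decreasing there, and
otherwise `π_i` of the key polynomial of `s_i α`, for the least ascent `i`. -/
noncomputable def keyPoly (h : ℕ) (α : ℕ → ℤ) : F :=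
  climb demazure (fun α => ∏ i ∈ range h, x i ^ α i) h α

/-- `w` fixes every `i ≥ n`. -/
def Fixes (n : ℕ) (w : Equiv.Perm ℕ) : Prop := ∀ i, n ≤ i → w i = i

/-- `w` is the stretched permutation `u^{(N)}`: finitely supported, with code `N · code u`. -/
def IsStretch (u : Equiv.Perm ℕ) (N : ℕ) (w : Equiv.Perm ℕ) : Prop :=
  (∃ n, Fixes n w) ∧ ∀ i, lehmer w i = N * lehmer u i

/-- Every Schubert polynomial is a nonnegative integer combination of key polynomials
(theorem of Reiner and Shimozono; used only in the last clause of `result`). -/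
def KeyPositivity : Prop := ∀ (n : ℕ) (w : Equiv.Perm ℕ), Fixes n w →
  ∃ d : (ℕ → ℤ) →₀ ℕ, (∀ α ∈ d.support, ∀ i, 0 ≤ α i ∧ (n ≤ i → α i = 0)) ∧
    schubert n w = ∑ α ∈ d.support, (d α : F) * keyPoly n α

theorem b_eq : (conc ℤ 0).b = 0 := by
  unfold Env.b
  exact map_zero _

theorem D_eq : (conc ℤ 0).D = demazure := by
  funext i f
  unfold Env.D demazure
  rw [b_eq, zero_mul, zero_mul, add_zero, mul_one, mul_one]
  rfl

theorem dd_eq : (conc ℤ 0).dd = ddiff := by
  funext i f
  unfold Env.dd ddiff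
  rw [b_eq, zero_mul, zero_mul, add_zero, one_mul, one_mul]
  rfl

theorem key_eq (h : ℕ) (α : ℕ → ℤ) : (conc ℤ 0).key h α = keyPoly h α := by
  unfold Env.key keyPoly
  rw [D_eq]
  rfl

theorem groth_eq (n : ℕ) (w : Equiv.Perm ℕ) : (conc ℤ 0).groth n (line w) = schubert n w := by
  unfold Env.groth schubert
  rw [dd_eq]
  rfl

theorem result :
    -- the polynomials `schubert n w` have the defining properties of Schubert polynomials
    (∀ (n : ℕ) (w : Equiv.Perm ℕ), (∀ i, i < n → w i = n - 1 - i) →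
      schubert n w = ∏ i ∈ range n, x i ^ ((n : ℤ) - 1 - i)) ∧
    (∀ (n : ℕ) (w : Equiv.Perm ℕ) (i : ℕ), i + 1 < n → w (i + 1) < w i →
      schubert n (w * Equiv.swap i (i + 1)) = ddiff i (schubert n w)) ∧
    (∀ (n n' : ℕ) (w : Equiv.Perm ℕ), Fixes n w → Fixes n' w → schubert n w = schubert n' w) ∧
    -- the polynomials `keyPoly h α` have the defining properties of key polynomials
    (∀ (h : ℕ) (α : ℕ → ℤ), (∀ i, i + 1 < h → α (i + 1) ≤ α i) →
      keyPoly h α = ∏ i ∈ range h, x i ^ α i) ∧
    (∀ (h : ℕ) (α : ℕ → ℤ) (i : ℕ), i + 1 < h → α i < α (i + 1) →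
      keyPoly h α = demazure i (keyPoly h (fun j => α (Equiv.swap i (i + 1) j)))) ∧
    -- stretched permutations exist
    (∀ (u : Equiv.Perm ℕ) (n : ℕ), Fixes n u → ∀ N, ∃ w, IsStretch u N w) ∧
    -- the stable expansion
    ∀ (u : Equiv.Perm ℕ) (h : ℕ), Fixes h u →
      ∃ (t : ℕ) (c : Fin t → ℤ) (γ δ : Fin t → ℕ → ℤ),
        (∀ j, c j ≠ 0) ∧ (∀ j i, h ≤ i → γ j i = 0 ∧ δ j i = 0) ∧
        (∃ N₀ : ℕ, ∀ N ≥ N₀, (∀ j i, 0 ≤ N * γ j i + δ j i) ∧
          (Function.Injective fun j => fun i => (N : ℤ) * γ j i + δ j i) ∧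
          ∀ (w : Equiv.Perm ℕ) (n : ℕ), IsStretch u N w → Fixes n w →
            schubert n w = ∑ j, (c j : F) * keyPoly h (fun i => N * γ j i + δ j i)) ∧
        (KeyPositivity → ∀ j, 0 < c j) := by
  classical
  refine ⟨?_, ?_, ?_, ?_, ?_, ?_, ?_⟩
  · intro n w hw
    unfold schubert
    apply climb_base
    rintro i ⟨h1, h2⟩
    have h3 : (w i : ℤ) < (w (i + 1) : ℤ) := h2
    rw [hw i (by omega), hw (i + 1) h1] at h3
    omega
  · intro n w i hi hlt
    rw [← groth_eq, ← groth_eq, ← dd_eq]
    have hA : Asc n (line (w * Equiv.swap i (i + 1))) i := by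
      refine ⟨hi, ?_⟩
      unfold line
      rw [Equiv.Perm.mul_apply, Equiv.Perm.mul_apply, Equiv.swap_apply_left,
        Equiv.swap_apply_right]
      exact_mod_cast hlt
    rw [(conc ℤ 0).groth_asc hA]
    congr 2
    funext j
    show line (w * Equiv.swap i (i + 1)) (Equiv.swap i (i + 1) j) = line w j
    unfold line
    rw [Equiv.Perm.mul_apply, Equiv.swap_apply_self]
  · intro n n' w h1 h2
    rw [← groth_eq, ← groth_eq]
    apply (conc ℤ 0).groth_eq_of_code _ _ (dist_line _ _) (dist_line _ _)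
    intro i
    rw [code_line h1, code_line h2]
  · intro h α hα
    unfold keyPoly
    apply climb_base
    rintro i ⟨h1, h2⟩
    exact absurd (hα i h1) (not_le.2 h2)
  · intro h α i hi hlt
    rw [← key_eq, ← key_eq, ← D_eq]
    exact (conc ℤ 0).key_asc ⟨hi, hlt⟩
  · intro u n hu N
    exact exists_perm n (fun i => N * lehmer u i) (fun i hi => by
      rw [lehmer_eq_zero hu (by omega), mul_zero])
  · intro u h hu
    have hnn := (conc ℤ 0).nn_of_b_eq_zero b_eq (conc_monLI ℤ 0)
    have hk := (conc ℤ 0).key_li b_eq (conc_monLI ℤ 0)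
    obtain ⟨c, hcs, hev⟩ := (conc ℤ 0).main hnn u h hu
    obtain ⟨N₀, hN₀⟩ := Filter.eventually_atTop.1 hev
    set e := c.support.equivFin.symm with he
    refine ⟨c.support.card, fun j => c (e j).1, fun j => (e j).1.1, fun j => (e j).1.2, ?_, ?_,
      ⟨N₀, ?_⟩, ?_⟩
    · intro j
      exact Finsupp.mem_support_iff.1 (e j).2
    · intro j i hi
      exact hcs _ (e j).2 i hi
    · intro N hN
      obtain ⟨h1, h2, h3⟩ := hN₀ N hN
      refine ⟨fun j i => h2 _ (e j).2 i, ?_, ?_⟩
      · intro j j' heq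
        apply e.injective
        apply Subtype.ext
        exact h1 (e j).2 (e j').2 heq
      · intro w n hw hn
        rw [← groth_eq, h3 w n hn hw.2]
        unfold Env.ev Finsupp.sum
        rw [← Finset.sum_coe_sort c.support, ← Equiv.sum_comp e]
        apply Finset.sum_congr rfl
        intro j _
        beta_reduce
        rw [Algebra.smul_def, eq_intCast, key_eq]
        rfl
    · intro hpos j
      obtain ⟨h1, h2, h3⟩ := hN₀ N₀ le_rfl
      obtain ⟨w, ⟨n0, hn0⟩, hl⟩ := exists_perm h (fun i => N₀ * lehmer u i) (fun i hi => by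
        rw [lehmer_eq_zero hu (by omega), mul_zero])
      have hn : Fixes (max n0 h) w := fun i hi => hn0 i (by omega)
      obtain ⟨d, hd1, hd2⟩ := hpos (max n0 h) w hn
      have h4 := (conc ℤ 0).coeff_eq hk (le_max_right n0 h) c hcs N₀ h1 h2
        (d.mapRange (fun m : ℕ => (m : ℤ)) (by simp))
        (fun α hα i hi => (hd1 α (Finsupp.support_mapRange hα) i).2 hi) (by
          rw [← h3 w _ hn hl, groth_eq, hd2,
            Finsupp.sum_mapRange_index (by
              intro α
              rw [Algebra.smul_def, map_zero, zero_mul])]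
          apply Finset.sum_congr rfl
          intro α _
          beta_reduce
          rw [Algebra.smul_def, eq_intCast, key_eq]
          push_cast
          rfl) _ (e j).2
      rw [Finsupp.mapRange_apply] at h4
      have h5 : c (e j).1 ≠ 0 := Finsupp.mem_support_iff.1 (e j).2
      show 0 < c (e j).1
      rw [h4] at h5 ⊢
      omega

end Pool.Agent.Results.MP_26ab9b_co.StableKeyExpansion
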